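import Pool.Agent.MP_9c491c_pr.H65.Geo

/-! The product law is a mixture of sequential laws. -/

namespace Pool.Agent.MP_9c491c_pr.H65

open Finset

set_option linter.unusedSectionVars false

variable {ι : Type*} [DecidableEq ι]

lemma exists_ge_of_weights (V W : ℕ → ℝ) (n : ℕ) (hW0 : 0 ≤ W 0)
    (hmono : ∀ m, m < n → W m ≤ W (m + 1)) (hWn : W n = 1) :
    ∃ m, m ≤ n ∧ V n - ∑ m ∈ range n, W m * (V (m + 1) - V m) ≤ V m := by
  obtain ⟨m, hm, hmax⟩ := (range (n + 1)).exists_max_image V ⟨0, by simp⟩
  refine ⟨m, by simp at hm; omega, ?_⟩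
  have key : ∀ j, j ≤ n → W j * V j - ∑ m ∈ range j, W m * (V (m + 1) - V m) ≤ W j * V m := by
    intro j
    induction j with
    | zero =>
      intro _
      simpa using mul_le_mul_of_nonneg_left (hmax 0 (by simp)) hW0
    | succ j ih =>
      intro hj
      have h1 := ih (by omega)
      have h2 := hmono j (by omega)
      have h3 := hmax (j + 1) (by simp; omega)
      rw [sum_range_succ]
      nlinarith [mul_le_mul_of_nonneg_left h3 (sub_nonneg.2 h2)]
  have := key n le_rfl
  rw [hWn] at this
  linarith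

/-- `c` is a maximal chain of subsets from the empty set to `s`. -/
def IsCh (s : Finset ι) (c : ℕ → Finset ι) : Prop :=
  c 0 = ∅ ∧ c s.card = s ∧ (∀ j, j ≤ s.card → c j ⊆ s ∧ (c j).card = j) ∧
    ∀ j, j < s.card → ∃ e, e ∉ c j ∧ c (j + 1) = insert e (c j)

/-- Expected value of `F` under the sequential law along `c` with `n` trials. -/
noncomputable def seqE (p : ι → ℝ) (n : ℕ) (c : ℕ → Finset ι) (F : Finset ι → ℝ) : ℝ :=
  F (c 0) + ∑ j ∈ range n, K p (c (j + 1)) n * (F (c (j + 1)) - F (c j))

/-- Expected value of `F` under the product law on subsets of `s`. -/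
noncomputable def prodE (p : ι → ℝ) (s : Finset ι) (F : Finset ι → ℝ) : ℝ :=
  ∑ S ∈ s.powerset, ((∏ i ∈ S, p i) * ∏ i ∈ s \ S, (1 - p i)) * F S

lemma prodE_insert (p : ι → ℝ) {s : Finset ι} {i : ι} (hi : i ∉ s) (F : Finset ι → ℝ) :
    prodE p (insert i s) F
      = prodE p s (fun S => (1 - p i) * F S + p i * F (insert i S)) := by
  unfold prodE
  rw [sum_powerset_insert hi, ← sum_add_distrib]
  apply sum_congr rfl
  intro S hS
  have hS' : S ⊆ s := mem_powerset.1 hS
  have hiS : i ∉ S := fun h => hi (hS' h)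
  have e1 : insert i s \ S = insert i (s \ S) := by
    ext x; simp only [mem_sdiff, mem_insert]; grind
  have e2 : insert i s \ insert i S = s \ S := by
    ext x; simp only [mem_sdiff, mem_insert]; grind
  rw [e1, e2, prod_insert hiS, prod_insert (by simp [hi])]
  ring

/-- Insert the item `i` into the chain after position `m`. -/
def ins (i : ι) (c : ℕ → Finset ι) (m : ℕ) : ℕ → Finset ι :=
  fun j => if j ≤ m then c j else insert i (c (j - 1))

lemma ins_isCh {s : Finset ι} {c : ℕ → Finset ι} (hc : IsCh s c) {i : ι} (hi : i ∉ s)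
    {m : ℕ} (hm : m ≤ s.card) : IsCh (insert i s) (ins i c m) := by
  obtain ⟨h0, hn, hsub, hstep⟩ := hc
  have hcard : (insert i s).card = s.card + 1 := card_insert_of_notMem hi
  have hnot : ∀ j, j ≤ s.card → i ∉ c j := fun j hj h => hi ((hsub j hj).1 h)
  refine ⟨by simp [ins, h0], ?_, ?_, ?_⟩
  · rw [hcard]
    have : ¬ (s.card + 1 ≤ m) := by omega
    simp [ins, this, hn]
  · intro j hj
    rw [hcard] at hj
    unfold ins
    split_ifs with h
    · exact ⟨(hsub j (by omega)).1.trans (subset_insert _ _), (hsub j (by omega)).2⟩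
    · refine ⟨insert_subset_insert _ (hsub (j - 1) (by omega)).1, ?_⟩
      rw [card_insert_of_notMem (hnot _ (by omega)), (hsub (j - 1) (by omega)).2]
      omega
  · intro j hj
    rw [hcard] at hj
    unfold ins
    by_cases h1 : j + 1 ≤ m
    · rw [if_pos h1, if_pos (by omega)]
      exact hstep j (by omega)
    · rw [if_neg h1]
      by_cases h2 : j ≤ m
      · rw [if_pos h2]
        exact ⟨i, hnot j (by omega), by simp⟩
      · rw [if_neg h2]
        obtain ⟨e, he, hce⟩ := hstep (j - 1) (by omega)
        have hj1 : j - 1 + 1 = j := by omega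
        rw [hj1] at hce
        have hei : e ≠ i := by
          rintro rfl
          exact hnot j (by omega) (by rw [hce]; simp)
        refine ⟨e, by simp [he, hei], ?_⟩
        simp only [add_tsub_cancel_right]
        rw [hce, Finset.insert_comm]

lemma seqE_ins_last (p : ι → ℝ) (c : ℕ → Finset ι) (i : ι) (n : ℕ) (F : Finset ι → ℝ) :
    seqE p (n + 1) (ins i c n) F
      = F (c 0) + ∑ j ∈ range n, K p (c (j + 1)) (n + 1) * (F (c (j + 1)) - F (c j))
        + K p (insert i (c n)) (n + 1) * (F (insert i (c n)) - F (c n)) := by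
  unfold seqE
  rw [sum_range_succ]
  have h1 : ∑ j ∈ range n, K p (ins i c n (j + 1)) (n + 1)
      * (F (ins i c n (j + 1)) - F (ins i c n j))
      = ∑ j ∈ range n, K p (c (j + 1)) (n + 1) * (F (c (j + 1)) - F (c j)) := by
    apply sum_congr rfl
    intro j hj
    have hj' : j < n := by simpa using hj
    simp [ins, show j + 1 ≤ n by omega, show j ≤ n by omega]
  rw [h1]
  simp [ins]
  ring

lemma seqE_ins_diff (p : ι → ℝ) (c : ℕ → Finset ι) (i : ι) (n m : ℕ) (hm : m < n)
    (F : Finset ι → ℝ) :
    seqE p (n + 1) (ins i c (m + 1)) F - seqE p (n + 1) (ins i c m) F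
      = K p (c (m + 1)) (n + 1) * (F (c (m + 1)) - F (c m))
        - K p (insert i (c (m + 1))) (n + 1) * (F (c (m + 1)) - F (insert i (c m)))
        - K p (insert i (c m)) (n + 1) * (F (insert i (c m)) - F (c m)) := by
  unfold seqE
  have h0 : ins i c (m + 1) 0 = ins i c m 0 := by simp [ins]
  rw [h0, add_sub_add_left_eq_sub, ← sum_sub_distrib]
  have hsub : ({m, m + 1} : Finset ℕ) ⊆ range (n + 1) := by
    intro x hx
    simp at hx ⊢
    omega
  rw [← sum_subset hsub, sum_pair (by omega)]
  · simp [ins]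
    ring
  · intro j _ hj
    simp only [mem_insert, mem_singleton, not_or] at hj
    have e1 : ins i c (m + 1) (j + 1) = ins i c m (j + 1) := by
      unfold ins
      by_cases h : j + 1 ≤ m
      · rw [if_pos h, if_pos (by omega)]
      · rw [if_neg h, if_neg (by omega)]
    have e2 : ins i c (m + 1) j = ins i c m j := by
      unfold ins
      by_cases h : j ≤ m
      · rw [if_pos h, if_pos (by omega)]
      · rw [if_neg h, if_neg (by omega)]
    rw [e1, e2]
    ring

lemma abel_aux (k d : ℕ → ℝ) (n : ℕ) :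
    ∑ j ∈ range n, (k j - k (j + 1)) * d j + k n * d n
      = k 0 * d 0 + ∑ j ∈ range n, k (j + 1) * (d (j + 1) - d j) := by
  induction n with
  | zero => simp
  | succ n ih =>
    rw [sum_range_succ, sum_range_succ]
    linarith

lemma step_mix {p : ι → ℝ} (h0 : ∀ i, 0 < p i) (h1 : ∀ i, p i < 1) {s : Finset ι}
    {c : ℕ → Finset ι} (hc : IsCh s c) {i : ι} (hi : i ∉ s) (F : Finset ι → ℝ) :
    ∃ m, m ≤ s.card ∧
      seqE p s.card c (fun S => (1 - p i) * F S + p i * F (insert i S))
        ≤ seqE p (s.card + 1) (ins i c m) F := by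
  obtain ⟨hc0, hn, hsub, hstep⟩ := hc
  set n := s.card with hndef
  have hnot : ∀ j, j ≤ n → i ∉ c j := fun j hj h => hi ((hsub j hj).1 h)
  set W : ℕ → ℝ := fun m => if m < n then
    p i * f p (c (m + 1)) (n + 1) / f p (insert i (c (m + 1))) (n + 2) else 1 with hW
  have hden : ∀ m, m < n → 0 < f p (insert i (c (m + 1))) (n + 2) := by
    intro m hm
    apply f_insert_pos h0 h1 (hnot _ (by omega))
    rw [(hsub (m + 1) (by omega)).2]
    omega
  have hWmul : ∀ m, m < n → W m * f p (insert i (c (m + 1))) (n + 2)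
      = p i * f p (c (m + 1)) (n + 1) := by
    intro m hm
    have := hden m hm
    simp only [hW, if_pos hm]
    field_simp
  have hW0 : 0 ≤ W 0 := by
    simp only [hW]
    split_ifs with h
    · have := hden 0 h
      have := h0 i
      have := f_nonneg h0 h1 (c (0 + 1)) (n + 1)
      positivity
    · norm_num
  have hmono : ∀ m, m < n → W m ≤ W (m + 1) := by
    intro m hm
    simp only [hW, if_pos hm]
    split_ifs with h
    · rw [div_le_div_iff₀ (hden m hm) (hden (m + 1) h)]
      obtain ⟨e, he, hce⟩ := hstep (m + 1) h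
      have hei : e ≠ i := by
        rintro rfl
        exact hnot (m + 1 + 1) (by omega) (by rw [hce]; simp)
      have := f_ratio h0 h1 (hnot (m + 1) (by omega)) he hei (n + 1)
      rw [hce]
      have hp := h0 i
      nlinarith [mul_le_mul_of_nonneg_left this hp.le]
    · rw [div_le_one (hden m hm), f_insert_succ p (hnot _ (by omega)) (n + 1)]
      have := f_nonneg h0 h1 (insert i (c (m + 1))) (n + 1)
      have hq : 0 ≤ 1 - p i := by linarith [h1 i]
      nlinarith [mul_nonneg hq this]
  have hWn : W n = 1 := by simp [hW]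
  obtain ⟨m, hm, hle⟩ := exists_ge_of_weights (fun m => seqE p (n + 1) (ins i c m) F) W n
    hW0 hmono hWn
  refine ⟨m, hm, le_trans (le_of_eq ?_) hle⟩
  have hterm : ∀ m ∈ range n,
      W m * (seqE p (n + 1) (ins i c (m + 1)) F - seqE p (n + 1) (ins i c m) F)
        = (K p (c (m + 1)) (n + 1) - K p (c (m + 1)) n) * (F (c (m + 1)) - F (c m))
          - p i * ((K p (c m) n - K p (c (m + 1)) n) * (F (insert i (c m)) - F (c m))) := by
    intro m hm'
    have hm : m < n := by simpa using hm'
    rw [seqE_ins_diff p c i n m hm]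
    have hp := h0 i
    have I1 : W m * (K p (c (m + 1)) (n + 1) - K p (insert i (c (m + 1))) (n + 1))
        = K p (c (m + 1)) (n + 1) - K p (c (m + 1)) n := by
      have a1 := K_diff p (hnot (m + 1) (by omega)) (n + 1)
      have a2 := hWmul m hm
      have a3 := K_succ p (c (m + 1)) n
      apply mul_left_cancel₀ hp.ne'
      rw [← a1] at a2
      linear_combination a2 - p i * a3
    have I2 : W m * (K p (insert i (c m)) (n + 1) - K p (insert i (c (m + 1))) (n + 1))
        = p i * (K p (c m) n - K p (c (m + 1)) n) := by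
      obtain ⟨e, he, hce⟩ := hstep m hm
      have hei : e ≠ i := by
        rintro rfl
        exact hnot (m + 1) (by omega) (by rw [hce]; simp)
      have he' : e ∉ insert i (c m) := by simp [hei, he]
      have a1 := K_diff p he' (n + 1)
      have a2 := hWmul m hm
      have a3 := K_diff p he n
      rw [Finset.insert_comm, ← hce] at a1
      rw [← hce] at a3
      apply mul_left_cancel₀ (h0 e).ne'
      rw [← a1, ← a3] at a2
      linear_combination a2
    linear_combination (F (c (m + 1)) - F (c m)) * I1 - (F (insert i (c m)) - F (c m)) * I2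
  rw [sum_congr rfl hterm, seqE_ins_last]
  have hB : K p (insert i (c n)) (n + 1) = p i * K p (c n) n := by
    rw [K_insert_succ p (hnot n le_rfl), K_lt_card]
    · ring
    · rw [card_insert_of_notMem (hnot n le_rfl), (hsub n le_rfl).2]
      omega
  have hab := abel_aux (fun j => K p (c j) n) (fun j => F (insert i (c j)) - F (c j)) n
  simp only [hc0, K_empty] at hab
  rw [hB, sum_sub_distrib, ← mul_sum]
  unfold seqE
  have hs1 : ∑ j ∈ range n, K p (c (j + 1)) n *
      ((1 - p i) * F (c (j + 1)) + p i * F (insert i (c (j + 1)))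
        - ((1 - p i) * F (c j) + p i * F (insert i (c j))))
      = ∑ j ∈ range n, K p (c (j + 1)) n * (F (c (j + 1)) - F (c j))
        + p i * ∑ j ∈ range n, K p (c (j + 1)) n *
          ((F (insert i (c (j + 1))) - F (c (j + 1))) - (F (insert i (c j)) - F (c j))) := by
    rw [mul_sum, ← sum_add_distrib]
    apply sum_congr rfl
    intro j _
    ring
  have hs2 : ∑ j ∈ range n, (K p (c (j + 1)) (n + 1) - K p (c (j + 1)) n)
      * (F (c (j + 1)) - F (c j))
      = ∑ j ∈ range n, K p (c (j + 1)) (n + 1) * (F (c (j + 1)) - F (c j))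
        - ∑ j ∈ range n, K p (c (j + 1)) n * (F (c (j + 1)) - F (c j)) := by
    rw [← sum_sub_distrib]
    apply sum_congr rfl
    intro j _
    ring
  rw [hs1, hs2, hc0]
  linear_combination (-p i) * hab

theorem prodE_le_seqE {p : ι → ℝ} (h0 : ∀ i, 0 < p i) (h1 : ∀ i, p i < 1) (s : Finset ι) :
    ∀ F : Finset ι → ℝ, ∃ c, IsCh s c ∧ prodE p s F ≤ seqE p s.card c F := by
  induction s using Finset.induction_on with
  | empty =>
    intro F
    refine ⟨fun _ => ∅, ⟨rfl, rfl, ?_, ?_⟩, ?_⟩
    · intro j hj
      simp at hj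
      simp [hj]
    · intro j hj
      simp at hj
    · simp [prodE, seqE]
  | insert i s hi ih =>
    intro F
    obtain ⟨c, hc, hle⟩ := ih (fun S => (1 - p i) * F S + p i * F (insert i S))
    obtain ⟨m, hm, hle2⟩ := step_mix h0 h1 hc hi F
    refine ⟨ins i c m, ins_isCh hc hi hm, ?_⟩
    rw [prodE_insert p hi, card_insert_of_notMem hi]
    exact hle.trans hle2

/-- For an up-closed family `U` missing the empty set, the product probability of `U` is at most
any common bound of the sequential completion probabilities of its members. -/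
theorem prodE_upset_le {p : ι → ℝ} (h0 : ∀ i, 0 < p i) (h1 : ∀ i, p i < 1) (s : Finset ι)
    (U : Finset ι → Prop) [DecidablePred U] (hU : ∀ S e, U S → U (insert e S)) (hU0 : ¬ U ∅)
    (β : ℝ) (hβ0 : 0 ≤ β) (hβ : ∀ S, U S → K p S s.card ≤ β) :
    prodE p s (fun S => if U S then 1 else 0) ≤ β := by
  obtain ⟨c, ⟨hc0, -, -, hstep⟩, hle⟩ := prodE_le_seqE h0 h1 s (fun S => if U S then 1 else 0)
  refine hle.trans ?_
  unfold seqE
  have h2 : ∑ j ∈ range s.card, K p (c (j + 1)) s.card *
      ((if U (c (j + 1)) then (1 : ℝ) else 0) - (if U (c j) then 1 else 0))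
      ≤ ∑ j ∈ range s.card,
        β * ((if U (c (j + 1)) then (1 : ℝ) else 0) - (if U (c j) then 1 else 0)) := by
    apply sum_le_sum
    intro j hj
    obtain ⟨e, -, hce⟩ := hstep j (by simpa using hj)
    by_cases a1 : U (c (j + 1))
    · by_cases a2 : U (c j)
      · simp [a1, a2]
      · simpa [a1, a2] using hβ _ a1
    · have a2 : ¬ U (c j) := fun h => a1 (hce ▸ hU _ e h)
      simp [a1, a2]
  rw [← mul_sum, sum_range_sub (fun j => if U (c j) then (1 : ℝ) else 0)] at h2
  simp only [hc0, if_neg hU0, sub_zero, zero_add] at h2 ⊢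
  refine h2.trans ?_
  split_ifs <;> linarith

end Pool.Agent.MP_9c491c_pr.H65
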