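import Mathlib

/-! Sums of independent geometric variables, handled through their generating functions. -/

namespace Pool.Agent.MP_9c491c_pr.H65

open Finset

set_option linter.unusedSectionVars false

/-- Strong log-concavity of a sequence. -/
def LC (ψ : ℕ → ℝ) : Prop := ∀ a d e, ψ a * ψ (a + d + e) ≤ ψ (a + d) * ψ (a + e)

lemma cross {ψ φ : ℕ → ℝ} {p : ℝ} (hp0 : 0 ≤ p) (hp1 : p ≤ 1) (hψ : LC ψ)
    (hrec : ∀ k, φ (k + 1) = (1 - p) * φ k + p * ψ k)
    (hbase : ∀ d e, φ 0 * ψ (d + e) ≤ φ d * ψ e) :
    ∀ a d e, φ a * ψ (a + d + e) ≤ φ (a + d) * ψ (a + e) := by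
  intro a
  induction a with
  | zero => intro d e; simpa using hbase d e
  | succ a ih =>
    intro d e
    have h1 := ih d (e + 1)
    have h2 := hψ a d (e + 1)
    have e1 : a + 1 + d + e = a + d + (e + 1) := by ring
    have e2 : a + 1 + d = (a + d) + 1 := by ring
    have e3 : a + 1 + e = a + (e + 1) := by ring
    rw [e1, e2, e3, hrec a, hrec (a + d)]
    have hq : 0 ≤ 1 - p := by linarith
    nlinarith [mul_le_mul_of_nonneg_left h1 hq, mul_le_mul_of_nonneg_left h2 hp0]

lemma lc_of_step {φ : ℕ → ℝ} (h : ∀ a d, φ a * φ (a + d + 1) ≤ φ (a + 1) * φ (a + d)) :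
    LC φ := by
  have key : ∀ d a e, d ≤ e → φ a * φ (a + d + e) ≤ φ (a + d) * φ (a + e) := by
    intro d
    induction d with
    | zero => intro a e _; simp
    | succ d ih =>
      intro a e hde
      obtain ⟨e', rfl⟩ : ∃ e', e = e' + 1 := ⟨e - 1, by omega⟩
      have h1 := h a (d + 1 + e')
      have h2 := ih (a + 1) e' (by omega)
      have e1 : a + (d + 1) + (e' + 1) = a + (d + 1 + e') + 1 := by ring
      have e2 : a + (d + 1 + e') = a + 1 + d + e' := by ring
      have e3 : a + (d + 1) = a + 1 + d := by ring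
      have e4 : a + (e' + 1) = a + 1 + e' := by ring
      rw [e1, e3, e4]
      rw [e2] at h1 ⊢
      exact h1.trans h2
  intro a d e
  rcases le_total d e with hde | hde
  · exact key d a e hde
  · have := key e a d hde
    have e1 : a + e + d = a + d + e := by ring
    rw [e1] at this
    linarith [mul_comm (φ (a + d)) (φ (a + e))]

lemma lc_rec {ψ φ : ℕ → ℝ} {p : ℝ} (hp0 : 0 ≤ p) (hp1 : p ≤ 1) (hψ : LC ψ)
    (hrec : ∀ k, φ (k + 1) = (1 - p) * φ k + p * ψ k)
    (hbase : ∀ d e, φ 0 * ψ (d + e) ≤ φ d * ψ e) : LC φ := by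
  apply lc_of_step
  intro a d
  have h1 := cross hp0 hp1 hψ hrec hbase a d 0
  simp only [add_zero] at h1
  rw [hrec a, hrec (a + d)]
  nlinarith [mul_le_mul_of_nonneg_left h1 hp0]

variable {ι : Type*} [DecidableEq ι]

/-- Generating function of the geometric law on 1, 2, ... with success probability `x`. -/
noncomputable def G (x : ℝ) : PowerSeries ℝ :=
  PowerSeries.mk fun k => if k = 0 then 0 else x * (1 - x) ^ (k - 1)

lemma G_eq (x : ℝ) :
    G x = PowerSeries.X * (PowerSeries.C (1 - x) * G x + PowerSeries.C x) := by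
  ext k
  cases k with
  | zero => simp [G]
  | succ k =>
    rw [PowerSeries.coeff_succ_X_mul, map_add, PowerSeries.coeff_C_mul, PowerSeries.coeff_C]
    cases k with
    | zero => simp [G]
    | succ k => simp [G]; ring

/-- Probability that the items of `S` are all completed exactly at trial `k`. -/
noncomputable def f (p : ι → ℝ) (S : Finset ι) (k : ℕ) : ℝ :=
  PowerSeries.coeff k (∏ i ∈ S, G (p i))

lemma f_empty (p : ι → ℝ) (k : ℕ) : f p ∅ k = if k = 0 then 1 else 0 := by
  simp [f, PowerSeries.coeff_one]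

lemma f_insert_zero (p : ι → ℝ) {S : Finset ι} {i : ι} (hi : i ∉ S) :
    f p (insert i S) 0 = 0 := by
  unfold f
  rw [prod_insert hi, G_eq, mul_assoc]
  simp

lemma f_insert_succ (p : ι → ℝ) {S : Finset ι} {i : ι} (hi : i ∉ S) (k : ℕ) :
    f p (insert i S) (k + 1) = (1 - p i) * f p (insert i S) k + p i * f p S k := by
  unfold f
  rw [prod_insert hi]
  conv_lhs => rw [G_eq, mul_assoc, PowerSeries.coeff_succ_X_mul, add_mul, map_add, mul_assoc,
    PowerSeries.coeff_C_mul, PowerSeries.coeff_C_mul]

lemma f_nonneg {p : ι → ℝ} (h0 : ∀ i, 0 < p i) (h1 : ∀ i, p i < 1) (S : Finset ι) :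
    ∀ k, 0 ≤ f p S k := by
  induction S using Finset.induction_on with
  | empty => intro k; rw [f_empty]; split_ifs <;> norm_num
  | insert i S hi ih =>
    intro k
    induction k with
    | zero => rw [f_insert_zero p hi]
    | succ k ihk =>
      rw [f_insert_succ p hi]
      have := h0 i
      have := h1 i
      have := ih k
      have : 0 ≤ 1 - p i := by linarith
      positivity

lemma f_card_pos {p : ι → ℝ} (h0 : ∀ i, 0 < p i) (h1 : ∀ i, p i < 1) (S : Finset ι) :
    0 < f p S S.card := by
  induction S using Finset.induction_on with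
  | empty => simp [f_empty]
  | insert i S hi ih =>
    rw [card_insert_of_notMem hi, f_insert_succ p hi]
    have := h0 i
    have := h1 i
    have := f_nonneg h0 h1 (insert i S) S.card
    have : 0 ≤ 1 - p i := by linarith
    positivity

lemma f_insert_pos {p : ι → ℝ} (h0 : ∀ i, 0 < p i) (h1 : ∀ i, p i < 1) {S : Finset ι} {i : ι}
    (hi : i ∉ S) (k : ℕ) (hk : S.card + 1 ≤ k) : 0 < f p (insert i S) k := by
  induction k, hk using Nat.le_induction with
  | base => rw [← card_insert_of_notMem hi]; exact f_card_pos h0 h1 _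
  | succ k _ ih =>
    rw [f_insert_succ p hi]
    have := h0 i
    have := h1 i
    have := f_nonneg h0 h1 S k
    have : 0 < 1 - p i := by linarith
    positivity

lemma f_lt_card (p : ι → ℝ) (S : Finset ι) : ∀ k, k < S.card → f p S k = 0 := by
  induction S using Finset.induction_on with
  | empty => intro k hk; simp at hk
  | insert i S hi ih =>
    intro k
    induction k with
    | zero => intro _; exact f_insert_zero p hi
    | succ k ihk =>
      intro hk
      rw [card_insert_of_notMem hi] at hk ihk
      rw [f_insert_succ p hi, ihk (by omega), ih k (by omega)]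
      ring

lemma f_lc {p : ι → ℝ} (h0 : ∀ i, 0 < p i) (h1 : ∀ i, p i < 1) (S : Finset ι) :
    LC (f p S) := by
  induction S using Finset.induction_on with
  | empty =>
    intro a d e
    simp only [f_empty]
    split_ifs <;> first | omega | norm_num
  | insert i S hi ih =>
    refine lc_rec (h0 i).le (h1 i).le ih (f_insert_succ p hi) ?_
    intro d e
    rw [f_insert_zero p hi, zero_mul]
    exact mul_nonneg (f_nonneg h0 h1 _ _) (f_nonneg h0 h1 _ _)

/-- The ratio inequality that makes the mixture weights monotone. -/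
lemma f_ratio {p : ι → ℝ} (h0 : ∀ i, 0 < p i) (h1 : ∀ i, p i < 1) {S : Finset ι} {i e : ι}
    (hi : i ∉ S) (he : e ∉ S) (hie : e ≠ i) (N : ℕ) :
    f p S N * f p (insert i (insert e S)) (N + 1)
      ≤ f p (insert e S) N * f p (insert i S) (N + 1) := by
  have hcr := cross (h0 i).le (h1 i).le (f_lc h0 h1 S) (f_insert_succ p hi) (by
    intro d e
    rw [f_insert_zero p hi, zero_mul]
    exact mul_nonneg (f_nonneg h0 h1 _ _) (f_nonneg h0 h1 _ _))
  have hA : ∀ j, j ≤ N → f p (insert i S) (j + 1) * f p S N
      ≤ f p (insert i S) (N + 1) * f p S j := by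
    intro j hj
    obtain ⟨d, rfl⟩ := Nat.exists_eq_add_of_le hj
    have h2 := hcr j d 0
    simp only [add_zero] at h2
    rw [f_insert_succ p hi, f_insert_succ p hi]
    have hq : 0 ≤ 1 - p i := by linarith [h1 i]
    nlinarith [mul_le_mul_of_nonneg_left h2 hq]
  have he' : e ∉ insert i S := by simp [hie, he]
  rw [Finset.insert_comm]
  have hB : ∀ j, j ≤ N → f p S N * f p (insert e (insert i S)) (j + 1)
      ≤ f p (insert e S) j * f p (insert i S) (N + 1) := by
    intro j
    induction j with
    | zero =>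
      intro _
      rw [f_insert_succ p he', f_insert_zero p he', f_insert_zero p hi, f_insert_zero p he]
      simp
    | succ j ih =>
      intro hj
      have h2 := ih (by omega)
      have h3 := hA j (by omega)
      rw [f_insert_succ p he' (j + 1), f_insert_succ p he j]
      have hq : 0 ≤ 1 - p e := by linarith [h1 e]
      nlinarith [mul_le_mul_of_nonneg_left h2 hq, mul_le_mul_of_nonneg_left h3 (h0 e).le]
  exact hB N le_rfl

/-- Probability that the items of `S` are all completed within `k` trials. -/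
noncomputable def K (p : ι → ℝ) (S : Finset ι) (k : ℕ) : ℝ := ∑ j ∈ range (k + 1), f p S j

lemma K_succ (p : ι → ℝ) (S : Finset ι) (k : ℕ) : K p S (k + 1) = K p S k + f p S (k + 1) := by
  simp [K, sum_range_succ]

lemma K_empty (p : ι → ℝ) (k : ℕ) : K p ∅ k = 1 := by
  simp [K, f_empty]

lemma K_insert_zero (p : ι → ℝ) {S : Finset ι} {i : ι} (hi : i ∉ S) :
    K p (insert i S) 0 = 0 := by
  simp [K, f_insert_zero p hi]

lemma K_insert_succ (p : ι → ℝ) {S : Finset ι} {i : ι} (hi : i ∉ S) (k : ℕ) :
    K p (insert i S) (k + 1) = (1 - p i) * K p (insert i S) k + p i * K p S k := by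
  induction k with
  | zero =>
    rw [K_succ, K_insert_zero p hi, f_insert_succ p hi, f_insert_zero p hi]
    simp [K]
  | succ k ih =>
    rw [K_succ p (insert i S) (k + 1), f_insert_succ p hi, K_succ p S k]
    conv_rhs => rw [K_succ p (insert i S) k]
    rw [ih]
    ring

lemma K_diff (p : ι → ℝ) {S : Finset ι} {i : ι} (hi : i ∉ S) (k : ℕ) :
    p i * (K p S k - K p (insert i S) k) = f p (insert i S) (k + 1) := by
  have h1 := K_insert_succ p hi k
  have h2 := K_succ p (insert i S) k
  linarith

lemma K_lt_card (p : ι → ℝ) (S : Finset ι) (k : ℕ) (hk : k < S.card) : K p S k = 0 := by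
  unfold K
  apply sum_eq_zero
  intro j hj
  exact f_lt_card p S j (by simp at hj; omega)

lemma K_nonneg {p : ι → ℝ} (h0 : ∀ i, 0 < p i) (h1 : ∀ i, p i < 1) (S : Finset ι) (k : ℕ) :
    0 ≤ K p S k := sum_nonneg fun j _ => f_nonneg h0 h1 S j

lemma K_insert_le {p : ι → ℝ} (h0 : ∀ i, 0 < p i) (h1 : ∀ i, p i < 1) {S : Finset ι} {i : ι}
    (hi : i ∉ S) (k : ℕ) : K p (insert i S) k ≤ K p S k := by
  have h2 := K_diff p hi k
  have h3 := f_nonneg h0 h1 (insert i S) (k + 1)
  have h4 := h0 i
  by_contra hc
  push Not at hc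
  nlinarith

lemma K_le_one {p : ι → ℝ} (h0 : ∀ i, 0 < p i) (h1 : ∀ i, p i < 1) (S : Finset ι) (k : ℕ) :
    K p S k ≤ 1 := by
  induction S using Finset.induction_on with
  | empty => rw [K_empty]
  | insert i S hi ih => exact (K_insert_le h0 h1 hi k).trans ih

/-- The survival function is log-concave. -/
lemma H_lc {p : ι → ℝ} (h0 : ∀ i, 0 < p i) (h1 : ∀ i, p i < 1) (S : Finset ι) :
    LC (fun k => 1 - K p S k) ∧
      ∀ d e, 1 - K p S (d + e) ≤ (1 - K p S d) * (1 - K p S e) := by
  induction S using Finset.induction_on with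
  | empty =>
    refine ⟨fun a d e => ?_, fun d e => ?_⟩ <;> simp [K_empty]
  | insert i S hi ih =>
    have hlc : LC (fun k => 1 - K p (insert i S) k) := by
      refine lc_rec (h0 i).le (h1 i).le ih.1 (fun k => ?_) (fun d e => ?_)
      · simp only [K_insert_succ p hi]; ring
      · simp only [K_insert_zero p hi, sub_zero, one_mul]
        refine (ih.2 d e).trans ?_
        apply mul_le_mul_of_nonneg_right
        · linarith [K_insert_le h0 h1 hi d]
        · linarith [K_le_one h0 h1 S e]
    refine ⟨hlc, fun d e => ?_⟩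
    have := hlc 0 d e
    simpa [K_insert_zero p hi] using this

/-- Finite form of the mean identity. -/
lemma mean_le {p : ι → ℝ} (h0 : ∀ i, 0 < p i) (h1 : ∀ i, p i < 1) (S : Finset ι) (N : ℕ) :
    K p S N * ∑ i ∈ S, 1 / p i ≤ ∑ k ∈ range N, (1 - K p S k) := by
  induction S using Finset.induction_on with
  | empty => simp [K_empty]
  | insert i S hi ih =>
    have hid : ∀ N, p i * ∑ k ∈ range N, (1 - K p (insert i S) k)
        = p i * ∑ k ∈ range N, (1 - K p S k) + K p (insert i S) N := by
      intro N
      induction N with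
      | zero => simp [K_insert_zero p hi]
      | succ N ihN =>
        rw [sum_range_succ, sum_range_succ, K_insert_succ p hi]
        linarith
    rw [sum_insert hi]
    have hp := h0 i
    have hM : 0 ≤ ∑ i ∈ S, 1 / p i := sum_nonneg fun j _ => by have := h0 j; positivity
    have hle := K_insert_le h0 h1 hi N
    have h3 : K p (insert i S) N * ∑ i ∈ S, 1 / p i ≤ ∑ k ∈ range N, (1 - K p S k) :=
      (mul_le_mul_of_nonneg_right hle hM).trans ih
    have h4 : ∑ k ∈ range N, (1 - K p (insert i S) k)
        = ∑ k ∈ range N, (1 - K p S k) + K p (insert i S) N * (1 / p i) := by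
      have := hid N
      field_simp
      linarith
    rw [h4]
    linarith

end Pool.Agent.MP_9c491c_pr.H65
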