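import Pool.Agent.MP_9c491c_pr.H65.Geo

/-! A lower bound for the tail of a sum of geometric variables. -/

namespace Pool.Agent.MP_9c491c_pr.H65

open Finset Filter Topology

set_option linter.unusedSectionVars false

lemma tangent_line {h : ℕ → ℝ} (hlc : LC h) (hpos : ∀ k, 0 < h k) (m k : ℕ) :
    Real.log (h k) ≤ Real.log (h m) - (Real.log (h m) - Real.log (h (m + 1))) * ((k : ℝ) - m) := by
  set s := Real.log (h m) - Real.log (h (m + 1)) with hs
  have hlog : ∀ a d e, Real.log (h a) + Real.log (h (a + d + e))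
      ≤ Real.log (h (a + d)) + Real.log (h (a + e)) := by
    intro a d e
    rw [← Real.log_mul (hpos _).ne' (hpos _).ne', ← Real.log_mul (hpos _).ne' (hpos _).ne']
    exact Real.log_le_log (mul_pos (hpos _) (hpos _)) (hlc a d e)
  rcases le_total m k with hk | hk
  · induction k, hk using Nat.le_induction with
    | base => simp
    | succ k hk ih =>
      obtain ⟨d, rfl⟩ := Nat.exists_eq_add_of_le hk
      have := hlog m d 1
      push_cast at ih ⊢
      linarith
  · obtain ⟨d, hd⟩ := Nat.exists_eq_add_of_le hk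
    induction d generalizing k with
    | zero => simp at hd; simp [hd]
    | succ d ih =>
      have h1 := ih (k + 1) (by omega) (by omega)
      have h2 := hlog k 1 (d + 1)
      have e1 : k + 1 + (d + 1) = m + 1 := by omega
      have e2 : k + (d + 1) = m := by omega
      rw [e1, e2] at h2
      push_cast at h1 ⊢
      linarith

lemma G_step {s k0 : ℝ} (hs : 0 < s) (x y : ℝ) (hy1 : y ≤ 1)
    (hy2 : y ≤ Real.exp (-(s * (x + 1 - k0)))) :
    y ≤ (if x ≤ k0 then k0 - x + 1 / s else Real.exp (-(s * (x - k0))) / s)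
      - (if x + 1 ≤ k0 then k0 - (x + 1) + 1 / s else Real.exp (-(s * (x + 1 - k0))) / s) := by
  by_cases h1 : x + 1 ≤ k0
  · rw [if_pos h1, if_pos (by linarith)]
    linarith
  · rw [if_neg h1]
    set E := Real.exp (-(s * (x + 1 - k0))) with hE
    have hEpos : 0 < E := Real.exp_pos _
    by_cases h2 : x ≤ k0
    · rw [if_pos h2]
      push Not at h1
      set u := x + 1 - k0 with hu
      have hu0 : 0 < u := by linarith
      have hu1 : u ≤ 1 := by linarith
      have hE1 : E ≤ 1 := by
        rw [hE, Real.exp_le_one_iff]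
        nlinarith [mul_pos hs hu0]
      have hmul : E * Real.exp (s * u) = 1 := by
        rw [hE, ← Real.exp_add]; simp
      have h3 := Real.add_one_le_exp (s * u)
      have h4 : u * E ≤ (1 - E) / s := by
        rw [le_div_iff₀ hs]
        nlinarith [mul_le_mul_of_nonneg_left h3 hEpos.le]
      have h5 : k0 - x + 1 / s - E / s = (1 - u) + (1 - E) / s := by
        rw [hu]; ring
      rw [h5]
      nlinarith
    · rw [if_neg h2]
      have hmul : Real.exp (-(s * (x - k0))) = E * Real.exp s := by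
        rw [hE, ← Real.exp_add]; congr 1; ring
      have h3 := Real.add_one_le_exp s
      rw [hmul, ← sub_div, le_div_iff₀ hs]
      nlinarith [mul_le_mul_of_nonneg_left h3 hEpos.le, mul_le_mul_of_nonneg_right hy2 hs.le]

lemma tail_bound {h : ℕ → ℝ} (hlc : LC h) (hpos : ∀ k, 0 < h k) (hle : ∀ k, h k ≤ 1)
    (h0 : h 0 = 1) {M t : ℝ} {m : ℕ} (hm : 1 ≤ m) (ht0 : 0 < t) (ht1 : t ≤ 1)
    (hM : m / t + 1 ≤ M) (hsum : ∀ N, (1 - h N) * M ≤ ∑ k ∈ range N, h k) :
    Real.exp (-t) ≤ h m := by
  by_contra hc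
  push Not at hc
  set s := Real.log (h m) - Real.log (h (m + 1)) with hs
  set l := -Real.log (h m) with hl
  have hm' : (1 : ℝ) ≤ m := by exact_mod_cast hm
  have hlt : t < l := by
    have := Real.log_lt_log (hpos m) hc
    rw [Real.log_exp] at this
    linarith
  have htan : ∀ k : ℕ, Real.log (h k) ≤ -l - s * ((k : ℝ) - m) := by
    intro k
    have := tangent_line hlc hpos m k
    rw [hl]
    linarith
  have hsm : l ≤ s * m := by
    have := htan 0
    rw [h0, Real.log_one] at this
    push_cast at this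
    linarith
  have hs0 : 0 < s := by
    by_contra hn
    push Not at hn
    nlinarith
  set k0 := (m : ℝ) - l / s with hk0
  have hk00 : 0 ≤ k0 := by
    rw [hk0, sub_nonneg, div_le_iff₀ hs0]
    linarith
  have hexp : ∀ k : ℕ, h k ≤ Real.exp (-(s * ((k : ℝ) - k0))) := by
    intro k
    rw [← Real.log_le_iff_le_exp (hpos k)]
    have e : -(s * ((k : ℝ) - k0)) = -l - s * ((k : ℝ) - m) := by
      rw [hk0]; field_simp; ring
    rw [e]
    exact htan k
  set Gf : ℝ → ℝ := fun x =>
    if x ≤ k0 then k0 - x + 1 / s else Real.exp (-(s * (x - k0))) / s with hG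
  have hGpos : ∀ x, 0 ≤ Gf x := by
    intro x
    simp only [hG]
    split_ifs with hx
    · have : 0 < 1 / s := by positivity
      linarith
    · positivity
  have hpart : ∀ N : ℕ, ∑ k ∈ range N, h (k + 1) ≤ Gf 0 - Gf N := by
    intro N
    induction N with
    | zero => simp
    | succ N ih =>
      rw [sum_range_succ]
      have h1 := hexp (N + 1)
      push_cast at h1 ⊢
      have := G_step hs0 (N : ℝ) (h (N + 1)) (hle _) h1
      simp only [hG] at ih ⊢
      linarith
  have hG0 : Gf 0 = k0 + 1 / s := by simp [hG, hk00]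
  have hM0 : 0 ≤ M := by
    have : 0 ≤ (m : ℝ) / t := by positivity
    linarith
  have hall : ∀ N : ℕ, (1 - Real.exp (-(s * (((N + 1 : ℕ) : ℝ) - k0)))) * M
      ≤ 1 + k0 + 1 / s := by
    intro N
    have h1 := hsum (N + 1)
    rw [sum_range_succ', h0] at h1
    have h2 := hpart N
    have h3 := hGpos N
    have h4 := hexp (N + 1)
    nlinarith [mul_le_mul_of_nonneg_right h4 hM0]
  have hlim : Tendsto (fun N : ℕ => (1 - Real.exp (-(s * (((N + 1 : ℕ) : ℝ) - k0)))) * M)
      atTop (𝓝 ((1 - 0) * M)) := by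
    refine Tendsto.mul_const _ (Tendsto.const_sub _ ?_)
    refine Real.tendsto_exp_neg_atTop_nhds_zero.comp ?_
    refine Tendsto.const_mul_atTop hs0 ?_
    refine tendsto_atTop_add_const_right _ (-k0) ?_
    exact tendsto_natCast_atTop_atTop.comp (tendsto_add_atTop_nat 1)
  have hMle : M ≤ 1 + k0 + 1 / s := by
    have := le_of_tendsto' hlim hall
    linarith
  have h5 : m / t - m ≤ (1 - l) / s := by
    have : (1 - l) / s = 1 / s - l / s := by ring
    linarith
  have h6 : (m : ℝ) ≤ m / t := by
    rw [le_div_iff₀ ht0]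
    nlinarith
  have h7 : 0 ≤ 1 - l := by
    have : 0 ≤ (1 - l) / s := by linarith
    by_contra hn
    push Not at hn
    have := div_neg_of_neg_of_pos hn hs0
    linarith
  have hl0 : 0 < l := by linarith
  have h8 : (1 - l) / s ≤ (1 - l) * m / l := by
    rw [div_le_div_iff₀ hs0 hl0]
    nlinarith [mul_le_mul_of_nonneg_left hsm h7]
  have h9 : (1 - l) * m / l = m / l - m := by field_simp
  have h10 : (m : ℝ) / l < m / t := div_lt_div_of_pos_left (by linarith) ht0 hlt
  linarith

variable {ι : Type*} [DecidableEq ι]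

lemma H_pos {p : ι → ℝ} (h0 : ∀ i, 0 < p i) (h1 : ∀ i, p i < 1) {S : Finset ι} {i : ι}
    (hi : i ∉ S) (k : ℕ) : 0 < 1 - K p (insert i S) k := by
  induction k with
  | zero => rw [K_insert_zero p hi]; norm_num
  | succ k ih =>
    rw [K_insert_succ p hi]
    have a1 := h0 i
    have a2 : 0 < 1 - p i := by linarith [h1 i]
    have a3 : 0 ≤ 1 - K p S k := by linarith [K_le_one h0 h1 S k]
    nlinarith [mul_pos a2 ih, mul_nonneg a1.le a3]

lemma K_single (p : ι → ℝ) (i : ι) (k : ℕ) : K p {i} k = 1 - (1 - p i) ^ k := by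
  have hi : i ∉ (∅ : Finset ι) := by simp
  have e : ({i} : Finset ι) = insert i ∅ := by simp
  rw [e]
  induction k with
  | zero => rw [K_insert_zero p hi]; simp
  | succ k ih => rw [K_insert_succ p hi, ih, K_empty]; ring

lemma inv_one_sub_exp {x : ℝ} (hx0 : 0 < x) (hx1 : x ≤ 1) :
    1 / x + 1 / 2 ≤ 1 / (1 - Real.exp (-x)) := by
  have h1 := Real.exp_le_two_add_div_two_sub hx0.le (by linarith)
  have h2 : Real.exp (-x) < 1 := by
    rw [Real.exp_lt_one_iff]; linarith
  have h3 : Real.exp (-x) * Real.exp x = 1 := by rw [← Real.exp_add]; simp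
  have h4 := Real.exp_pos (-x)
  rw [le_div_iff₀ (by linarith)] at h1
  have h5 : 2 - x ≤ Real.exp (-x) * (2 + x) := by
    nlinarith [mul_le_mul_of_nonneg_left h1 h4.le]
  have e : 1 / x + 1 / 2 = (2 + x) / (2 * x) := by field_simp
  rw [e, div_le_div_iff₀ (by linarith) (by linarith)]
  nlinarith

theorem K_le_of_sum {a : ι → ℝ} (ha : ∀ i, 1 ≤ a i) {t : ℝ} (ht0 : 0 < t) (ht1 : t ≤ 1)
    {m : ℕ} (hm : 1 ≤ m) (S : Finset ι) (hS : (m : ℝ) ≤ ∑ i ∈ S, a i) :
    K (fun i => 1 - Real.exp (-(t / a i))) S m ≤ 1 - Real.exp (-t) := by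
  set p : ι → ℝ := fun i => 1 - Real.exp (-(t / a i)) with hp
  have hx0 : ∀ i, 0 < t / a i := fun i => div_pos ht0 (by linarith [ha i])
  have hx1 : ∀ i, t / a i ≤ 1 := fun i => by
    rw [div_le_one (by linarith [ha i])]; linarith [ha i]
  have h0 : ∀ i, 0 < p i := fun i => by
    have : Real.exp (-(t / a i)) < 1 := by
      rw [Real.exp_lt_one_iff]; linarith [hx0 i]
    simp only [hp]; linarith
  have h1 : ∀ i, p i < 1 := fun i => by
    have := Real.exp_pos (-(t / a i))
    simp only [hp]; linarith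
  have hm' : (1 : ℝ) ≤ m := by exact_mod_cast hm
  by_cases hc : S.card ≤ 1
  · obtain ⟨i, hi⟩ : ∃ i, S = {i} := by
      rcases Nat.le_one_iff_eq_zero_or_eq_one.1 hc with h | h
      · rw [card_eq_zero] at h
        rw [h] at hS
        simp at hS
        omega
      · exact card_eq_one.1 h
    rw [hi] at hS ⊢
    rw [sum_singleton] at hS
    rw [K_single]
    have e : (1 - p i) ^ m = Real.exp (-(t * (m / a i))) := by
      simp only [hp, sub_sub_cancel]
      rw [← Real.exp_nat_mul]
      congr 1
      ring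
    rw [e]
    have : (m : ℝ) / a i ≤ 1 := by rw [div_le_one (by linarith)]; exact hS
    have : Real.exp (-t) ≤ Real.exp (-(t * (m / a i))) := by
      apply Real.exp_le_exp.2
      nlinarith
    linarith
  · push Not at hc
    obtain ⟨i, hi⟩ : S.Nonempty := card_pos.1 (by omega)
    have hS' : insert i (S.erase i) = S := insert_erase hi
    have hi' : i ∉ S.erase i := notMem_erase i S
    have hmean : m / t + 1 ≤ ∑ j ∈ S, 1 / p j := by
      have a1 : ∑ j ∈ S, (a j / t + 1 / 2) ≤ ∑ j ∈ S, 1 / p j := by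
        apply sum_le_sum
        intro j _
        have := inv_one_sub_exp (hx0 j) (hx1 j)
        rw [one_div_div] at this
        exact this
      rw [sum_add_distrib, ← sum_div, sum_const, nsmul_eq_mul] at a1
      have a2 : (2 : ℝ) ≤ S.card := by exact_mod_cast hc
      have a3 : (m : ℝ) / t ≤ (∑ j ∈ S, a j) / t := by gcongr
      linarith
    have := tail_bound (h := fun k => 1 - K p S k) (H_lc h0 h1 S).1
      (fun k => by rw [← hS']; exact H_pos h0 h1 hi' k)
      (fun k => by linarith [K_nonneg h0 h1 S k])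
      (by rw [← hS', K_insert_zero p hi']; simp) hm ht0 ht1 hmean
      (fun N => by simpa using mean_le h0 h1 S N)
    linarith

end Pool.Agent.MP_9c491c_pr.H65
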